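import Pool.Agent.Lib.SC17.Top

namespace Pool.Agent.Results.MP_4e7873_nt.ExactOrder

open Pool.Agent.Lib.MP_4e7873_nt Pool.Agent.Lib.SC17

/-- The order of magnitude of the largest local mean value, for every side length `δ`. -/
theorem result (d : ℕ) (hd : 3 ≤ d) (s ε : ℝ) (hs : 0 < s) (h : 4 ≤ s ∨ 5 ≤ d) (hε : 0 < ε) :
    ∃ N₀ : ℕ, ∀ N : ℕ, N₀ ≤ N → ∀ δ : ℝ, 0 < δ → δ ≤ 1 →
      (∀ ξ : Fin d → ℝ, localMean s d δ ξ N ≤ (N : ℝ) ^ ε * order s d δ N) ∧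
        ∃ ξ : Fin d → ℝ, (N : ℝ) ^ (-ε) * order s d δ N ≤ localMean s d δ ξ N :=
  main hd hs h hε

end Pool.Agent.Results.MP_4e7873_nt.ExactOrder
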