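import Pool.Agent.Lib.SC.All17

namespace Pool.Agent.Results.MP_4e7873_nt.Full

open Pool.Agent.Lib.MP_4e7873_nt

/-- The small cube conjecture: every degree `d ≥ 1`, every real `s > 0`, under the condition
`s ≥ d (d + 1) / 4 + 1` or `δ ≥ N ^ (1 / d - (d + 1) / 4)`. -/
theorem result (d : ℕ) (hd : 1 ≤ d) (s ε : ℝ) (hs : 0 < s) (hε : 0 < ε) :
    ∃ N₀ : ℕ, ∀ N : ℕ, N₀ ≤ N → ∀ δ : ℝ, 0 < δ → δ ≤ 1 →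
      ((d : ℝ) * (d + 1) / 4 + 1 ≤ s ∨ (N : ℝ) ^ (1 / (d : ℝ) - ((d : ℝ) + 1) / 4) ≤ δ) →
      ∀ ξ : Fin d → ℝ, localMean s d δ ξ N ≤
        δ ^ d * (N : ℝ) ^ (s + ε) + (N : ℝ) ^ (2 * s - (d : ℝ) * (d + 1) / 2 + ε) :=
  Pool.Agent.Lib.SC.stMAIN d s ε hd hs hε

end Pool.Agent.Results.MP_4e7873_nt.Full
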