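import Pool.Agent.Lib.MP_4e7873_nt.Integ

namespace Pool.Agent.Results.MP_4e7873_nt.Quadratic

open Pool.Agent.Lib.MP_4e7873_nt

/-- The small cube conjecture in degree `d = 2`, in the wider range `s ≥ 2` or `δ ≥ N^(-1/2)`. -/
theorem result (s ε : ℝ) (hs : 0 < s) (hε : 0 < ε) :
    ∃ N₀ : ℕ, ∀ N : ℕ, N₀ ≤ N → ∀ δ : ℝ, 0 < δ → δ ≤ 1 →
      (2 ≤ s ∨ (N : ℝ) ^ (-(1 / 2 : ℝ)) ≤ δ) → ∀ ξ : Fin 2 → ℝ,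
        localMean s 2 δ ξ N ≤ δ ^ 2 * (N : ℝ) ^ (s + ε) + (N : ℝ) ^ (2 * s - 3 + ε) :=
  quadratic_case s ε hs hε

end Pool.Agent.Results.MP_4e7873_nt.Quadratic
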